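import Mathlib
import Pool.Agent.H52.Spr

namespace Pool.Agent.Results.MP_c5a493_nt.Uniform

open Polynomial MeasureTheory Filter Pool.Agent.H52.Spr

/-- naive height: the maximum of the absolute values of the coefficients -/
def height (P : ℤ[X]) : ℕ := (Finset.range (P.natDegree + 1)).sup fun j => (P.coeff j).natAbs

lemma coeff_le (P : ℤ[X]) (i : ℕ) : (P.coeff i).natAbs ≤ height P := by
  rcases le_or_gt i P.natDegree with h | h
  · exact Finset.le_sup (f := fun j => (P.coeff j).natAbs) (Finset.mem_range.mpr (by omega))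
  · simp [coeff_eq_zero_of_natDegree_lt h]

theorem result : ∃ K : ℕ → ℝ, ∀ ε : ℝ, 0 < ε → ∀ᵐ ξ : ℝ ∂volume, ∃ C : ℝ, ∀ P : ℤ[X],
    1 ≤ P.natDegree → C ≤ max (P.natDegree : ℝ) (height P : ℝ) →
    Real.exp (-(1 + ε) * P.natDegree * Real.log (height P) - K P.natDegree) < |aeval ξ P| := by
  obtain ⟨J, hJ⟩ := diag id 1 one_pos
  have l2 : 0 < Real.log 2 := Real.log_pos one_lt_two
  refine ⟨fun n => (n + 1) * ((J n + 1) * Real.log 2), fun ε hε => ?_⟩
  have h2 : ∀ᵐ x : ℝ, ∀ n : ℕ, ∃ j0 : ℕ, ∀ j, j0 ≤ j → ¬ Bad n (ε / 2) (2 ^ j) x :=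
    ae_all_iff.mpr fun n => by
      obtain ⟨J', h⟩ := diag (fun _ => n) (ε / 2) (half_pos hε)
      filter_upwards [h] with x hx
      exact ⟨_, hx.exists.choose_spec⟩
  filter_upwards [hJ, h2] with x h3 h4
  choose j hj using h4
  obtain ⟨N, hN⟩ := eventually_atTop.mp (h3.and
    (tendsto_natCast_atTop_atTop.eventually_ge_atTop ε⁻¹))
  obtain ⟨B, hB⟩ := ((Set.finite_Iio N).image
    (fun n : ℕ => (n + ε / 2) * ((j n + 1) * Real.log 2) / (ε / 2))).bddAbove
  refine ⟨max N (Real.exp B), fun P p1 p2 => ?_⟩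
  have p0 : P ≠ 0 := by rintro rfl; simp at p1
  have H1 : 1 ≤ height P := le_trans (Int.natAbs_pos.mpr (leadingCoeff_ne_zero.mpr p0))
    (coeff_le P P.natDegree)
  have L0 : 0 ≤ Real.log (height P) := Real.log_nonneg (by exact_mod_cast H1)
  have n1 : (1 : ℝ) ≤ P.natDegree := by exact_mod_cast p1
  rcases le_or_gt N P.natDegree with h | h
  · refine lt_of_le_of_lt (Real.exp_le_exp.mpr ?_)
      (lower one_pos (hN _ h).1 p0 le_rfl H1 (coeff_le P))
    have a1 := (hN _ h).2
    rw [inv_le_iff_one_le_mul₀ hε] at a1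
    simp only [id]
    nlinarith [mul_le_mul_of_nonneg_right a1 L0]
  · refine lt_of_le_of_lt (Real.exp_le_exp.mpr ?_)
      (lower (half_pos hε) (hj _) p0 le_rfl H1 (coeff_le P))
    have a1 : (P.natDegree : ℝ) < N := by exact_mod_cast h
    have a2 : Real.exp B ≤ height P := by
      rcases le_max_iff.mp p2 with h | h
      · exact absurd ((le_max_left _ _).trans h) a1.not_ge
      · exact (le_max_right _ _).trans h
    have a3 := (hB ⟨_, h, rfl⟩).trans ((Real.le_log_iff_exp_le (by exact_mod_cast H1)).mpr a2)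
    rw [div_le_iff₀ (half_pos hε)] at a3
    have a4 : 0 ≤ ((P.natDegree : ℝ) + 1) * ((J P.natDegree + 1) * Real.log 2) := by positivity
    nlinarith [mul_le_mul_of_nonneg_right n1 (mul_nonneg hε.le L0), mul_nonneg hε.le L0]

end Pool.Agent.Results.MP_c5a493_nt.Uniform
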